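import Pool.Agent.Helper35.Cq.Defs
import Pool.Agent.Helper14.Cq.Mader

/-!
# CQ-2: many long pairs between two parts of an independent set give a clique minor
-/

set_option autoImplicit false

open Finset Module
open scoped Classical

namespace Pool.Agent.Helper35.Cq

theorem hasClique_of_pairs {F : Type*} [Field F] [Fintype F] {V : Type*} [AddCommGroup V]
    [Module F V] {E : Finset V} (hE : Conic F E) (t : ℕ) (I S T : Finset V)
    (hI : LinearIndepOn F id (I : Set V)) (hS : S ⊆ I) (hT : T ⊆ I) (hST : Disjoint S T)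
    (hpos : 0 < (pairs F E S T).card)
    (hcard : Fintype.card F * 2 ^ t * I.card ≤ (pairs F E S T).card) :
    HasClique F t (E : Set V) := by
  -- the pairs with a given coefficient
  set P : F → Finset (V × V) := fun b => (S ×ˢ T).filter fun p => p.1 + b • p.2 ∈ E with hP
  have hex : ∃ b : F, b ≠ 0 ∧ 2 ^ t * I.card ≤ (P b).card := by
    by_contra hcon
    push Not at hcon
    have h1 : pairs F E S T ⊆ (univ.filter fun b : F => b ≠ 0).biUnion P := by
      intro p hp
      simp only [pairs, mem_filter] at hp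
      obtain ⟨hp1, -, b, hb, hb2⟩ := hp
      simp only [mem_biUnion, hP, mem_filter, mem_univ, true_and]
      exact ⟨b, hb, hp1, hb2⟩
    have h2 : (pairs F E S T).card ≤ ∑ b ∈ univ.filter (fun b : F => b ≠ 0), (P b).card :=
      (card_le_card h1).trans card_biUnion_le
    have h3 : ∑ b ∈ univ.filter (fun b : F => b ≠ 0), (P b).card <
        ∑ _b ∈ univ.filter (fun b : F => b ≠ 0), 2 ^ t * I.card := by
      apply sum_lt_sum_of_nonempty
      · exact ⟨1, by simp⟩
      · intro b hb
        exact hcon b (by simpa using hb)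
    have h4 : ∑ _b ∈ univ.filter (fun b : F => b ≠ 0), 2 ^ t * I.card ≤
        Fintype.card F * 2 ^ t * I.card := by
      rw [sum_const, smul_eq_mul, mul_assoc]
      exact Nat.mul_le_mul_right _ (card_le_univ _)
    omega
  obtain ⟨b, hb, hbc⟩ := hex
  set z : V → V := fun v => if v ∈ S then v else -(b • v) with hz
  have hIne : I.Nonempty := by
    obtain ⟨p, hp⟩ := card_pos.1 hpos
    simp only [pairs, mem_filter, mem_product] at hp
    exact ⟨p.1, hS hp.1.1⟩
  have hneg : ∀ x ∈ (E : Set V), -x ∈ (E : Set V) := by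
    intro x hx
    have := hE.smul_mem (-1) (by simp) x (by simpa using hx)
    simpa using this
  have hind : ∀ α : V → F, ∑ i ∈ I, α i • z i ∈ Submodule.span F (∅ : Set V) →
      ∀ i ∈ I, α i = 0 := by
    intro α hα i hi
    rw [Submodule.span_empty, Submodule.mem_bot] at hα
    rw [linearIndepOn_finset_iff] at hI
    have h1 := hI (fun v => α v * (if v ∈ S then 1 else -b)) (by
      rw [← hα]
      apply sum_congr rfl
      intro v _
      simp only [hz, id]
      split_ifs
      · simp
      · rw [mul_neg, neg_smul, mul_smul, smul_neg]) i hi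
    simp only [mul_eq_zero] at h1
    rcases h1 with h1 | h1
    · exact h1
    · split_ifs at h1 with h2
      · exact absurd h1 one_ne_zero
      · exact absurd (neg_eq_zero.1 h1) hb
  have hc : 2 ^ (t - 1) * I.card ≤ ((I ×ˢ I).filter fun p => p.1 ≠ p.2 ∧
      ∃ e ∈ (E : Set V), z p.1 - z p.2 - e ∈ Submodule.span F (∅ : Set V)).card := by
    have h1 : (P b) ⊆ ((I ×ˢ I).filter fun p => p.1 ≠ p.2 ∧
      ∃ e ∈ (E : Set V), z p.1 - z p.2 - e ∈ Submodule.span F (∅ : Set V)) := by
      intro p hp
      simp only [hP, mem_filter, mem_product] at hp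
      have hne : p.2 ∉ S := fun h => (Finset.disjoint_left.1 hST) h hp.1.2
      simp only [mem_filter, mem_product]
      refine ⟨⟨hS hp.1.1, hT hp.1.2⟩, fun h => hne (h ▸ hp.1.1), p.1 + b • p.2, hp.2, ?_⟩
      simp [hz, hp.1.1, hne]
    calc 2 ^ (t - 1) * I.card ≤ 2 ^ t * I.card :=
          Nat.mul_le_mul_right _ (Nat.pow_le_pow_right (by norm_num) (Nat.sub_le _ _))
      _ ≤ (P b).card := hbc
      _ ≤ _ := card_le_card h1
  obtain ⟨C', hC'E, -, -, k, -, hk1, hk2⟩ :=
    mader (E : Set V) hneg z t I ∅ (Set.empty_subset _) hIne hind (by convert hc)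
  refine ⟨C', hC'E, fun a => z (k a), fun α _ h => hk1 α h, fun i j hij => ?_⟩
  obtain ⟨e, he, he2⟩ := hk2 i j hij
  refine ⟨e, he, 1, one_ne_zero, ?_⟩
  rw [one_smul]
  have := Submodule.neg_mem _ he2
  simpa using this

end Pool.Agent.Helper35.Cq
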